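import Pool.Agent.Y165.GO.Sh2
import Pool.Agent.Y165.GO.Gab

/-!
# Bounded operator orbits and overcomplete frames with a symmetry group

Which groups have an overcomplete group frame that is, in some ordering, the orbit of a bounded
operator: for orderings by the natural numbers none, for orderings by the integers exactly the
virtually infinite cyclic groups. In particular no ordering of an overcomplete Gabor frame, in any
dimension and over any lattice of time frequency shifts, is the orbit of a bounded operator.
-/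

set_option autoImplicit false

namespace Pool.Agent.Results.MP_6c6e33_an.GroupFrames

open Pool.Agent.Results.MP_6c6e33_an.GaborOrbit Pool.Agent.Y165.GO

/-- Some overcomplete `Λ`-frame of some Hilbert space `H ≠ 0` has an ordering by `I` which is the
orbit of a bounded operator. -/
def Orderable (I : Type) [Add I] [One I] (Λ : Type) [Group Λ] : Prop :=
  ∃ (H : Type) (_ : NormedAddCommGroup H) (_ : InnerProductSpace ℂ H) (_ : CompleteSpace H)
    (_ : Nontrivial H) (f : Λ → H), IsGroupFrame f ∧ ¬ IsRieszBasis f ∧ HasBoundedOrdering I f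

/-- Some overcomplete Gabor frame of `L²(ℝⁿ)` over `ℤ^r` has an ordering by `I` which is the orbit
of a bounded operator. -/
def GaborOrderable (I : Type) [Add I] [One I] (n r : ℕ) : Prop :=
  ∃ (α β : (Fin r → ℤ) →+ (Fin n → ℝ)) (g : L2n n) (f : (Fin r → ℤ) → L2n n),
    IsGaborFamily α β g f ∧ IsOvercompleteFrame f ∧ HasBoundedOrdering I f

theorem result :
    (∀ (Λ : Type) [Group Λ], ¬ Orderable ℕ Λ ∧ (Orderable ℤ Λ ↔ VirtuallyZ Λ)) ∧
    (∀ n r : ℕ, 2 ≤ r → ¬ GaborOrderable ℕ n r ∧ ¬ GaborOrderable ℤ n r) := by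
  refine ⟨fun Λ _ => ⟨?_, ?_, fun h => sharp h⟩, fun n r hr => ⟨?_, ?_⟩⟩
  · rintro ⟨H, i1, i2, i3, i4, f, hf, hR, hord⟩
    exact no_nat f hf hR hord
  · rintro ⟨H, i1, i2, i3, i4, f, hf, hR, hord⟩
    exact int_virt f hf hR hord
  · rintro ⟨α, β, g, f, hf, hover, hord⟩
    exact (gabor_group α β g f hf hover).1 hord
  · rintro ⟨α, β, g, f, hf, hover, hord⟩
    exact not_virt_pi hr ((gabor_group α β g f hf hover).2 hord)

end Pool.Agent.Results.MP_6c6e33_an.GroupFrames
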